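import Pool.Agent.H575.CPX.Brg
import Pool.Graph.R_pool_sql_team_seeded_f72693b1.W275.CP.D
import Pool.Graph.R_pool_sql_team_seeded_f72693b1.W395.CP.Root
import Pool.Graph.R_pool_sql_team_seeded_f72693b1.W52.CP.Quad
import Pool.Graph.R_pool_sql_team_seeded_f72693b1.W52.CP.Cong
import Pool.Graph.R_pool_sql_team_seeded_f72693b1.W816.CP.Good
import Pool.Graph.R_pool_sql_team_seeded_f72693b1.W565.CP.Sieve2

/-!
# Windows in which all squarefree numbers are congruent numbers, with a prescribed pattern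

The numbers are `j (x⁴ - 16 j² q⁴)` with `x` odd; the other numbers of the window are made divisible
by squares of primes. Proof: project CP of the library (run f72693b1, helpers 52, 275, 395, 565,
816), whose parts were proved there and are put together here.
-/

set_option autoImplicit false

namespace Pool.Agent.Results.MP_8efaaa_nt.ExactWindows

/-- `a` is a congruent number: `x² + a y² = z²`, `x² - a y² = t²` has a solution in positive
integers. -/
def Congruent (a : ℕ) : Prop :=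
  ∃ x y z t : ℕ, 0 < x ∧ 0 < y ∧ 0 < z ∧ 0 < t ∧ x ^ 2 + a * y ^ 2 = z ^ 2 ∧
    x ^ 2 = a * y ^ 2 + t ^ 2

/-- The squarefree congruent numbers in the class of `j` modulo `8`. -/
def Good (j : ℕ) (d : ℕ) : Prop := Squarefree d ∧ d % 8 = j ∧ Congruent d

/-- Let `j` be `5`, `6` or `7` (or `1`, `2`, `3`), let `f_1, …, f_k` be real numbers, `ε > 0` and
`G` real. There is a scale `L > 0` such that for all large `X` there are `N` in `[X, (1 + ε) X]` and
squarefree congruent numbers `d_1, …, d_k ≡ j` modulo `8` with `|d_i - (N + L f_i)| ≤ ε L` such that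
the interval `[N - G L, N + G L]` contains no other squarefree numbers. -/
theorem result (j : ℕ) (hj : j = 5 ∨ j = 6 ∨ j = 7 ∨ j = 1 ∨ j = 2 ∨ j = 3) (k : ℕ)
    (f : Fin k → ℝ) (ε G : ℝ) (hε : 0 < ε) :
    ∃ L X₀ : ℝ, 0 < L ∧ ∀ X : ℝ, X₀ ≤ X →
      ∃ N : ℝ, X ≤ N ∧ N ≤ (1 + ε) * X ∧ ∃ d : Fin k → ℕ,
        (∀ i, Good j (d i) ∧ |(d i : ℝ) - (N + L * f i)| ≤ ε * L) ∧
        ∀ n : ℕ, |(n : ℝ) - N| ≤ G * L → Squarefree n → ∃ i, n = d i := by
  have hJ : j ∈ Pool.Agent.W275.CP.J := by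
    unfold Pool.Agent.W275.CP.J
    rcases hj with rfl | rfl | rfl | rfl | rfl | rfl <;> decide
  obtain ⟨L, X₀, hL, H⟩ := Pool.Agent.W275.CP.exact_windows Pool.Agent.W52.CP.Cong.cong
    (Pool.Agent.W565.CP.Sieve2.main Pool.Agent.W52.CP.Quad.quad Pool.Agent.W52.CP.Quad.lin)
    Pool.Agent.W816.CP.good Pool.Agent.W395.CP.Root.main j hJ k f ε G hε
  refine ⟨L, X₀, hL, fun X hX => ?_⟩
  obtain ⟨N, h1, h2, d, h3, h4⟩ := H X hX
  refine ⟨N, h1, h2, d, fun i => ?_, h4⟩
  obtain ⟨a1, a2, a3, a4⟩ := h3 i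
  refine ⟨⟨a1, a2, Pool.Agent.H575.CPX.system_of a3⟩, ?_⟩
  rw [← sub_sub]
  exact a4

end Pool.Agent.Results.MP_8efaaa_nt.ExactWindows
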