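import Pool.Agent.H575.CPX.Brg
import Pool.Graph.R_pool_sql_team_seeded_f72693b1.W275.CP.A
import Pool.Graph.R_pool_sql_team_seeded_f72693b1.W395.CP.B
import Pool.Graph.R_pool_sql_team_seeded_f72693b1.W52.CP.Fac
import Pool.Graph.R_pool_sql_team_seeded_f72693b1.W52.CP.Quad
import Pool.Graph.R_pool_sql_team_seeded_f72693b1.W52.CP.Cong
import Pool.Graph.R_pool_sql_team_seeded_f72693b1.W816.CP.Good
import Pool.Graph.R_pool_sql_team_seeded_f72693b1.W816.CP.Sieve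

/-!
# Squarefree congruent numbers at every scale near every large number

The numbers are `j (x⁴ - 16 j² q⁴)` with `x` odd. Proof: project CP of the library (run f72693b1,
helpers 52, 275, 395, 816), whose parts were proved there and are put together here.
-/

set_option autoImplicit false

namespace Pool.Agent.Results.MP_8efaaa_nt.PatternsAtEveryScale

/-- `a` is a congruent number: `x² + a y² = z²`, `x² - a y² = t²` has a solution in positive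
integers. -/
def Congruent (a : ℕ) : Prop :=
  ∃ x y z t : ℕ, 0 < x ∧ 0 < y ∧ 0 < z ∧ 0 < t ∧ x ^ 2 + a * y ^ 2 = z ^ 2 ∧
    x ^ 2 = a * y ^ 2 + t ^ 2

/-- The squarefree congruent numbers in the class of `j` modulo `8`. -/
def Good (j : ℕ) (d : ℕ) : Prop := Squarefree d ∧ d % 8 = j ∧ Congruent d

/-- Let `j` be `5`, `6` or `7` (or `1`, `2`, `3`) and `ε > 0`.

(1) Let `f_1, …, f_k` be real numbers. There are `L₀` and `c > 0` such that for all large `X` and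
every scale `L`, `L₀ ≤ L ≤ c X`, there is a real number `N` in `[X, (1 + ε) X]` such that every
`N + L f_i` is, up to `ε L`, a squarefree congruent number `≡ j` modulo `8`.

(2) There are `H₀` and `c > 0` such that for all large `X` and all `H`, `H₀ ≤ H ≤ c X`, some interval
`[N, N + H]` with `X ≤ N ≤ (1 + ε) X` contains at least `c H ^ (1 / 4)` squarefree congruent numbers
`≡ j` modulo `8`. -/
theorem result (j : ℕ) (hj : j = 5 ∨ j = 6 ∨ j = 7 ∨ j = 1 ∨ j = 2 ∨ j = 3) (ε : ℝ) (hε : 0 < ε) :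
    (∀ (k : ℕ) (f : Fin k → ℝ), ∃ L₀ c X₀ : ℝ, 0 < c ∧
      ∀ X L : ℝ, X₀ ≤ X → L₀ ≤ L → L ≤ c * X →
      ∃ N : ℝ, X ≤ N ∧ N ≤ (1 + ε) * X ∧
        ∀ i, ∃ d : ℕ, Good j d ∧ |(d : ℝ) - (N + L * f i)| ≤ ε * L) ∧
    (∃ H₀ c X₀ : ℝ, 0 < c ∧ ∀ X H : ℝ, X₀ ≤ X → H₀ ≤ H → H ≤ c * X →
      ∃ N : ℝ, X ≤ N ∧ N ≤ (1 + ε) * X ∧ ∃ T : Finset ℕ, c * H ^ (1 / 4 : ℝ) ≤ (T.card : ℝ) ∧
        ∀ d ∈ T, Good j d ∧ N ≤ (d : ℝ) ∧ (d : ℝ) ≤ N + H) := by
  have hJ : j ∈ Pool.Agent.W275.CP.J := by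
    unfold Pool.Agent.W275.CP.J
    rcases hj with rfl | rfl | rfl | rfl | rfl | rfl <;> decide
  have hsieve : Pool.Agent.W275.CP.S_sieve := Pool.Agent.W816.CP.sieve
    Pool.Agent.W52.CP.Quad.quad Pool.Agent.W52.CP.Quad.lin Pool.Agent.W52.CP.Fac.main
  refine ⟨fun k f => ?_, ?_⟩
  · obtain ⟨L₀, c, X₀, hc, H⟩ := Pool.Agent.W275.CP.pattern Pool.Agent.W52.CP.Cong.cong
      Pool.Agent.W52.CP.Cong.modj hsieve Pool.Agent.W816.CP.good j hJ k f ε hε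
    refine ⟨L₀, c, X₀, hc, fun X L h1 h2 h3 => ?_⟩
    obtain ⟨N, hN1, hN2, hN⟩ := H X L h1 h2 h3
    refine ⟨N, hN1, hN2, fun i => ?_⟩
    obtain ⟨d, d1, d2, d3, d4⟩ := hN i
    refine ⟨d, ⟨d1, d2, Pool.Agent.H575.CPX.system_of d3⟩, ?_⟩
    rw [← sub_sub]
    exact d4
  · obtain ⟨H₀, c, X₀, hc, H⟩ := Pool.Agent.W395.CP.B.main Pool.Agent.W52.CP.Cong.cong
      Pool.Agent.W52.CP.Cong.modj hsieve Pool.Agent.W816.CP.good j hJ ε hε
    refine ⟨H₀, c, X₀, hc, fun X Y h1 h2 h3 => ?_⟩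
    obtain ⟨N, hN1, hN2, T, hT, hTd⟩ := H X Y h1 h2 h3
    refine ⟨N, hN1, hN2, T, hT, fun d hd => ?_⟩
    obtain ⟨a1, a2, a3, a4, a5⟩ := hTd d hd
    exact ⟨⟨a3, a4, Pool.Agent.H575.CPX.system_of a5⟩, a1, a2⟩

end Pool.Agent.Results.MP_8efaaa_nt.PatternsAtEveryScale
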